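import Mathlib

/-!
# Positive relations in complete configurations of lattice vectors
-/

set_option linter.style.haveILetI false
set_option linter.unusedSectionVars false

namespace Pool.Agent.V5helper91.Toric

open Matrix

variable {ι : Type} [Fintype ι] [DecidableEq ι]

/-- integer vectors as real vectors -/
def toR (v : ι → ℤ) : ι → ℝ := fun i => (v i : ℝ)

theorem toR_inj : Function.Injective (toR : (ι → ℤ) → ι → ℝ) := by
  intro v w h
  funext i
  have : (v i : ℝ) = w i := congrFun h i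
  exact_mod_cast this

theorem toR_sum {α : Type} (s : Finset α) (f : α → ι → ℤ) :
    toR (∑ a ∈ s, f a) = ∑ a ∈ s, toR (f a) := by
  funext i
  simp [toR, Finset.sum_apply]

theorem toR_smul (c : ℤ) (v : ι → ℤ) : toR (c • v) = (c : ℝ) • toR v := by
  funext i
  simp [toR]

theorem toR_neg (v : ι → ℤ) : toR (-v) = - toR v := by
  funext i
  simp [toR]

/-- every vector is a nonnegative combination -/
theorem cone_of_interior (V : Finset (ι → ℤ))
    (h0 : (0 : ι → ℝ) ∈ interior (convexHull ℝ (toR '' (V : Set (ι → ℤ))))) (u : ι → ℝ) :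
    ∃ c : (ι → ℤ) → ℝ, (∀ v ∈ V, 0 ≤ c v) ∧ u = ∑ v ∈ V, c v • toR v := by
  classical
  rw [mem_interior_iff_mem_nhds, Metric.mem_nhds_iff] at h0
  obtain ⟨ε, hε, hball⟩ := h0
  set t : ℝ := ε / (2 * (‖u‖ + 1)) with ht
  have ht0 : 0 < t := by positivity
  have h1 : t • u ∈ Metric.ball (0 : ι → ℝ) ε := by
    rw [mem_ball_zero_iff, norm_smul, Real.norm_of_nonneg ht0.le, ht]
    have : 0 ≤ ‖u‖ := norm_nonneg u
    rw [div_mul_eq_mul_div, div_lt_iff₀ (by positivity)]
    nlinarith
  have h2 := hball h1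
  rw [← Finset.coe_image, Finset.mem_convexHull'] at h2
  obtain ⟨w, hw, _, hwu⟩ := h2
  refine ⟨fun v => t⁻¹ * w (toR v), ?_, ?_⟩
  · intro v hv
    exact mul_nonneg (inv_nonneg.mpr ht0.le) (hw _ (Finset.mem_image_of_mem _ hv))
  · rw [Finset.sum_image (fun a _ b _ h => toR_inj h)] at hwu
    have h3 : u = t⁻¹ • (t • u) := by rw [smul_smul, inv_mul_cancel₀ ht0.ne', one_smul]
    rw [h3, ← hwu, Finset.smul_sum]
    exact Finset.sum_congr rfl fun v _ => by rw [smul_smul]

/-- Carathéodory for cones, together with a basis. -/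
theorem exists_basis_cone (u : ι → ℝ) (N : ℕ) : ∀ V : Finset (ι → ℤ), V.card = N →
    (⊤ ≤ Submodule.span ℝ (toR '' (V : Set (ι → ℤ)))) →
    (∃ c : (ι → ℤ) → ℝ, (∀ v ∈ V, 0 ≤ c v) ∧ u = ∑ v ∈ V, c v • toR v) →
    ∃ I ⊆ V, LinearIndepOn ℝ toR (I : Set (ι → ℤ)) ∧
      (⊤ ≤ Submodule.span ℝ (toR '' (I : Set (ι → ℤ)))) ∧
      ∃ c : (ι → ℤ) → ℝ, (∀ v ∈ I, 0 ≤ c v) ∧ u = ∑ v ∈ I, c v • toR v := by
  classical
  induction N with
  | zero =>
    intro V hV hsp hc
    have : V = ∅ := Finset.card_eq_zero.mp hV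
    subst this
    exact ⟨∅, le_rfl, by simp, hsp, hc⟩
  | succ N ih =>
    intro V hV hsp hc
    by_cases hli : LinearIndepOn ℝ toR (V : Set (ι → ℤ))
    · exact ⟨V, le_rfl, hli, hsp, hc⟩
    · rw [linearIndepOn_finset_iff] at hli
      push Not at hli
      obtain ⟨d, hd, v1, hv1, hdv1⟩ := hli
      -- make sure some coefficient is positive
      obtain ⟨d, hd, v1, hv1, hdv1⟩ : ∃ d : (ι → ℤ) → ℝ, ∑ v ∈ V, d v • toR v = 0 ∧
          ∃ v1 ∈ V, 0 < d v1 := by
        rcases lt_or_gt_of_ne hdv1 with h | h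
        · refine ⟨fun v => - d v, ?_, v1, hv1, by linarith⟩
          simp only [neg_smul, Finset.sum_neg_distrib, hd, neg_zero]
        · exact ⟨d, hd, v1, hv1, h⟩
      obtain ⟨c, hc0, hcu⟩ := hc
      obtain ⟨w, hw, hmin⟩ := Finset.exists_min_image (V.filter fun v => 0 < d v)
        (fun v => c v / d v) ⟨v1, by simp [hv1, hdv1]⟩
      simp only [Finset.mem_filter] at hw hmin
      obtain ⟨hwV, hdw⟩ := hw
      set c' : (ι → ℤ) → ℝ := fun v => c v - c w / d w * d v with hc'
      have hc'w : c' w = 0 := by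
        rw [hc']; field_simp; ring
      have hc'0 : ∀ v ∈ V, 0 ≤ c' v := by
        intro v hv
        rw [hc']
        simp only [sub_nonneg]
        by_cases h : 0 < d v
        · have := hmin v ⟨hv, h⟩
          rwa [← le_div_iff₀ h]
        · push Not at h
          have h1 : 0 ≤ c w / d w := div_nonneg (hc0 w hwV) hdw.le
          have h2 := hc0 v hv
          nlinarith
      have hsum : u = ∑ v ∈ V.erase w, c' v • toR v := by
        have h1 : ∑ v ∈ V, c' v • toR v = u := by
          simp only [hc', sub_smul, Finset.sum_sub_distrib, ← hcu, mul_smul]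
          rw [← Finset.smul_sum, hd, smul_zero, sub_zero]
        rw [← Finset.add_sum_erase _ _ hwV, hc'w, zero_smul, zero_add] at h1
        exact h1.symm
      have hwspan : toR w ∈ Submodule.span ℝ (toR '' ((V.erase w : Finset (ι → ℤ)) : Set (ι → ℤ))) := by
        rw [← Finset.add_sum_erase _ _ hwV] at hd
        have h1 : toR w = -((d w)⁻¹ • ∑ v ∈ V.erase w, d v • toR v) := by
          have h2 : ∑ v ∈ V.erase w, d v • toR v = - (d w • toR w) := by
            rw [eq_neg_iff_add_eq_zero, add_comm]; exact hd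
          rw [h2, smul_neg, neg_neg, smul_smul, inv_mul_cancel₀ hdw.ne', one_smul]
        rw [h1]
        refine Submodule.neg_mem _ (Submodule.smul_mem _ _ (Submodule.sum_mem _ fun v hv => ?_))
        exact Submodule.smul_mem _ _ (Submodule.subset_span ⟨v, hv, rfl⟩)
      have hsp' : ⊤ ≤ Submodule.span ℝ (toR '' ((V.erase w : Finset (ι → ℤ)) : Set (ι → ℤ))) := by
        refine hsp.trans (Submodule.span_le.mpr ?_)
        rintro _ ⟨v, hv, rfl⟩
        by_cases h : v = w
        · subst h; exact hwspan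
        · exact Submodule.subset_span ⟨v, Finset.mem_erase.mpr ⟨h, hv⟩, rfl⟩
      obtain ⟨I, hI, h1, h2, h3⟩ := ih (V.erase w) (by rw [Finset.card_erase_of_mem hwV]; omega)
        hsp' ⟨c', fun v hv => hc'0 v (Finset.mem_of_mem_erase hv), hsum⟩
      exact ⟨I, hI.trans (Finset.erase_subset _ _), h1, h2, h3⟩

/-- real matrix of a family of integer vectors -/
theorem det_toR (B : ι → ι → ℤ) : (Matrix.of fun i => toR (B i)).det = ((Matrix.of B).det : ℝ) := by
  have : (Matrix.of fun i => toR (B i)) = (Matrix.of B).map (Int.castRingHom ℝ) := by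
    ext i j; rfl
  rw [this, ← RingHom.mapMatrix_apply, ← RingHom.map_det]
  rfl

/-- a basis contained in `V` with nonnegative coordinates of `u` -/
theorem exists_basis_family (V : Finset (ι → ℤ))
    (h0 : (0 : ι → ℝ) ∈ interior (convexHull ℝ (toR '' (V : Set (ι → ℤ))))) (u : ι → ℝ) :
    ∃ B : ι → ι → ℤ, (∀ i, B i ∈ V) ∧ (Matrix.of B).det ≠ 0 ∧
      ∃ c : ι → ℝ, (∀ i, 0 ≤ c i) ∧ u = ∑ i, c i • toR (B i) := by
  classical
  have hsp : ⊤ ≤ Submodule.span ℝ (toR '' (V : Set (ι → ℤ))) := by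
    intro x _
    obtain ⟨c, _, rfl⟩ := cone_of_interior V h0 x
    exact Submodule.sum_mem _ fun v hv => Submodule.smul_mem _ _ (Submodule.subset_span ⟨v, hv, rfl⟩)
  obtain ⟨I, hI, hli, hspI, c, hc0, hcu⟩ := exists_basis_cone u V.card V rfl hsp
    (cone_of_interior V h0 u)
  have hli' : LinearIndependent ℝ (fun v : I => toR (v : ι → ℤ)) := hli
  have hspI' : ⊤ ≤ Submodule.span ℝ (Set.range fun v : I => toR (v : ι → ℤ)) := by
    convert hspI using 2
    ext x
    simp
  let b : Module.Basis I ℝ (ι → ℝ) := Module.Basis.mk hli' hspI'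
  have hcard : Fintype.card ι = Fintype.card I := by
    rw [← Module.finrank_eq_card_basis b]
    simp
  let e : ι ≃ I := Fintype.equivOfCardEq hcard
  refine ⟨fun i => (e i : ι → ℤ), fun i => hI (e i).2, ?_, fun i => c (e i), fun i => hc0 _ (e i).2,
    ?_⟩
  · have h1 : LinearIndependent ℝ (fun i => toR (e i : ι → ℤ)) := hli'.comp e e.injective
    have h2 : IsUnit (Matrix.of fun i => toR (e i : ι → ℤ)) := by
      rw [← Matrix.linearIndependent_rows_iff_isUnit]
      exact h1
    rw [Matrix.isUnit_iff_isUnit_det, isUnit_iff_ne_zero, det_toR (fun i => (e i : ι → ℤ))] at h2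
    exact_mod_cast h2
  · rw [hcu, Equiv.sum_comp e (fun v : I => c v • toR (v : ι → ℤ))]
    exact (Finset.sum_coe_sort I (fun v => c v • toR v)).symm

/-- integral coordinates in a unimodular configuration -/
theorem coords (V : Finset (ι → ℤ))
    (hU : ∀ M : ι → ι → ℤ, (∀ i, M i ∈ V) → |(Matrix.of M).det| ≤ 1)
    (B : ι → ι → ℤ) (hB : ∀ i, B i ∈ V) (hdet : (Matrix.of B).det ≠ 0) (v : ι → ℤ) (hv : v ∈ V) :
    ∃ γ : ι → ℤ, v = ∑ i, γ i • B i ∧ ∀ i, |γ i| ≤ 1 := by
  classical
  have hd1 : |(Matrix.of B).det| = 1 := by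
    have h1 := hU B hB
    have h2 := Int.one_le_abs hdet
    omega
  have hunit : IsUnit (Matrix.of B).det := by
    rw [Int.isUnit_iff]
    rcases abs_eq (by norm_num : (0 : ℤ) ≤ 1) |>.mp hd1 with h | h
    · left; exact h
    · right; exact h
  set γ : ι → ℤ := v ᵥ* (Matrix.of B)⁻¹ with hγ
  have hvγ : v = ∑ i, γ i • B i := by
    have h1 : γ ᵥ* (Matrix.of B) = v := by
      rw [hγ, Matrix.vecMul_vecMul, Matrix.nonsing_inv_mul _ hunit, Matrix.vecMul_one]
    rw [← h1, Matrix.vecMul_eq_sum]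
    rfl
  refine ⟨γ, hvγ, fun i => ?_⟩
  have h2 := Matrix.det_updateRow_sum (Matrix.of B) i γ
  have h3 : ((Matrix.of B).updateRow i v).det = γ i * (Matrix.of B).det := by
    conv_lhs => rw [hvγ]
    exact h2
  have h4 : |((Matrix.of B).updateRow i v).det| ≤ 1 := by
    have h5 := hU (Function.update B i v) (fun j => by
      by_cases h : j = i
      · subst h; rw [Function.update_self]; exact hv
      · rw [Function.update_of_ne h]; exact hB j)
    exact h5
  rw [h3, abs_mul, hd1, mul_one] at h4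
  exact h4

/-- a positive relation among the elements of a basis and one further vector -/
theorem exists_circuit (V : Finset (ι → ℤ))
    (h0 : (0 : ι → ℝ) ∈ interior (convexHull ℝ (toR '' (V : Set (ι → ℤ)))))
    (hU : ∀ M : ι → ι → ℤ, (∀ i, M i ∈ V) → |(Matrix.of M).det| ≤ 1) (v : ι → ℤ) (hv : v ∈ V) :
    ∃ B : ι → ι → ℤ, (∀ i, B i ∈ V) ∧ (Matrix.of B).det ≠ 0 ∧
      ∃ S : Finset ι, -v = ∑ i ∈ S, B i := by
  classical
  obtain ⟨B, hB, hdet, c, hc0, hcu⟩ := exists_basis_family V h0 (toR (-v))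
  obtain ⟨γ, hγ, hγ1⟩ := coords V hU B hB hdet v hv
  refine ⟨B, hB, hdet, Finset.univ.filter fun i => γ i = -1, ?_⟩
  have hli : LinearIndependent ℝ (fun i => toR (B i)) := by
    have h2 : IsUnit (Matrix.of fun i => toR (B i)) := by
      rw [Matrix.isUnit_iff_isUnit_det, isUnit_iff_ne_zero, det_toR]
      exact_mod_cast hdet
    rw [← Matrix.linearIndependent_rows_iff_isUnit] at h2
    exact h2
  have h1 : ∀ i, c i = - (γ i : ℝ) := by
    have h2 : ∑ i, (c i + (γ i : ℝ)) • toR (B i) = 0 := by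
      simp only [add_smul, Finset.sum_add_distrib, ← hcu]
      rw [toR_neg, hγ, toR_sum]
      simp only [toR_smul]
      exact neg_add_cancel _
    intro i
    have := (Fintype.linearIndependent_iff.mp hli) _ h2 i
    linarith
  have h2 : ∀ i, γ i = -1 ∨ γ i = 0 := by
    intro i
    have h3 := hc0 i
    rw [h1] at h3
    have h4 : γ i ≤ 0 := by
      have : (γ i : ℝ) ≤ 0 := by linarith
      exact_mod_cast this
    have h5 := hγ1 i
    rw [abs_le] at h5
    omega
  rw [hγ, ← Finset.sum_neg_distrib, Finset.sum_filter]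
  refine Finset.sum_congr rfl fun i _ => ?_
  rcases h2 i with h | h
  · rw [if_pos h, h]; simp
  · rw [if_neg (by omega), h]; simp

/-- the case of a simplex and one more vector -/
theorem circuit_of_full (V : Finset (ι → ℤ))
    (hU : ∀ M : ι → ι → ℤ, (∀ i, M i ∈ V) → |(Matrix.of M).det| ≤ 1)
    (B : ι → ι → ℤ) (hB : ∀ i, B i ∈ V) (hdet : (Matrix.of B).det ≠ 0)
    (hw : -∑ i, B i ∈ V) (v : ι → ℤ) (hv : v ∈ V) (hv0 : v ≠ 0) (hvw : v ≠ -∑ i, B i)
    (hvB : ∀ i, v ≠ B i) :
    ∃ B' : ι → ι → ℤ, (∀ i, B' i ∈ V) ∧ (Matrix.of B').det ≠ 0 ∧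
      ∃ S : Finset ι, S ≠ Finset.univ ∧ -v = ∑ i ∈ S, B' i := by
  classical
  obtain ⟨γ, hγ, hγ1⟩ := coords V hU B hB hdet v hv
  set w : ι → ℤ := -∑ i, B i with hw'
  have hd1 : |(Matrix.of B).det| = 1 := by
    have h1 := hU B hB
    have h2 := Int.one_le_abs hdet
    omega
  have hBw : ∀ j, ∀ i, Function.update B j w i ∈ V := by
    intro j i
    by_cases h : i = j
    · subst h; rw [Function.update_self]; exact hw
    · rw [Function.update_of_ne h]; exact hB i
  have hdetw : ∀ j, (Matrix.of (Function.update B j w)).det = -(Matrix.of B).det := by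
    intro j
    have h2 := Matrix.det_updateRow_sum (Matrix.of B) j (fun _ => (-1 : ℤ))
    have h3 : w = ∑ k, (-1 : ℤ) • B k := by
      rw [hw', ← Finset.sum_neg_distrib]; simp
    have h4 : (Matrix.of (Function.update B j w)) = (Matrix.of B).updateRow j w := rfl
    rw [h4, h3]
    have h5 : ((Matrix.of B).updateRow j (∑ k, (-1 : ℤ) • B k)).det = (-1 : ℤ) • (Matrix.of B).det :=
      h2
    rw [h5]; simp
  -- no mixed signs
  have hmix : ¬ ∃ i j, γ i = 1 ∧ γ j = -1 := by
    rintro ⟨i, j, hi, hj⟩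
    have hij : i ≠ j := by rintro rfl; omega
    set B1 : ι → ι → ℤ := Function.update B j w with hB1
    have hv1 : v = ∑ l, (if l = j then 1 else γ l + 1) • B1 l := by
      have h1 : ∀ l, (if l = j then (1 : ℤ) else γ l + 1) • B1 l =
          (γ l + 1) • B l + (if l = j then w else 0) := by
        intro l
        by_cases h : l = j
        · subst h; simp [hB1, hj]
        · simp [hB1, h]
      simp only [h1, Finset.sum_add_distrib, add_smul, one_smul, ← hγ]
      simp only [Finset.sum_ite_eq', Finset.mem_univ, if_true, hw']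
      abel
    have h2 := Matrix.det_updateRow_sum (Matrix.of B1) i (fun l => if l = j then (1 : ℤ) else γ l + 1)
    have h3 : (Matrix.of (Function.update B1 i v)).det = 2 * (Matrix.of B1).det := by
      have h4 : (Matrix.of (Function.update B1 i v)) = (Matrix.of B1).updateRow i v := rfl
      rw [h4]
      conv_lhs => rw [hv1]
      refine h2.trans ?_
      rw [if_neg hij, hi]; rfl
    have h5 := hU (Function.update B1 i v) (fun l => by
      by_cases h : l = i
      · subst h; rw [Function.update_self]; exact hv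
      · rw [Function.update_of_ne h]; exact hBw j l)
    rw [h3, hB1, hdetw, abs_mul, abs_neg, hd1] at h5
    norm_num at h5
  by_cases hneg : ∃ j, γ j = -1
  · -- all coordinates are `0` or `-1`
    have h2 : ∀ i, γ i = -1 ∨ γ i = 0 := by
      intro i
      have h5 := hγ1 i
      rw [abs_le] at h5
      obtain ⟨j, hj⟩ := hneg
      by_contra hcon
      exact hmix ⟨i, j, by omega, hj⟩
    refine ⟨B, hB, hdet, Finset.univ.filter fun i => γ i = -1, ?_, ?_⟩
    · intro hS
      apply hvw
      rw [hγ, hw', ← Finset.sum_neg_distrib]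
      refine Finset.sum_congr rfl fun i _ => ?_
      have : i ∈ Finset.univ.filter fun i => γ i = -1 := by rw [hS]; simp
      simp only [Finset.mem_filter, Finset.mem_univ, true_and] at this
      rw [this]; simp
    · rw [hγ, ← Finset.sum_neg_distrib, Finset.sum_filter]
      refine Finset.sum_congr rfl fun i _ => ?_
      rcases h2 i with h | h
      · rw [if_pos h, h]; simp
      · rw [if_neg (by omega), h]; simp
  · push Not at hneg
    have h2 : ∀ i, γ i = 1 ∨ γ i = 0 := by
      intro i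
      have h5 := hγ1 i
      rw [abs_le] at h5
      have := hneg i
      omega
    set A : Finset ι := Finset.univ.filter fun i => γ i = 1 with hA
    have hvA : v = ∑ i ∈ A, B i := by
      rw [hγ, hA, Finset.sum_filter]
      refine Finset.sum_congr rfl fun i _ => ?_
      rcases h2 i with h | h
      · rw [if_pos h, h]; simp
      · rw [if_neg (by omega), h]; simp
    obtain ⟨i1, hi1⟩ : A.Nonempty := by
      rw [Finset.nonempty_iff_ne_empty]
      intro h
      rw [h, Finset.sum_empty] at hvA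
      exact hv0 hvA
    refine ⟨Function.update B i1 w, hBw i1, by rw [hdetw]; exact neg_ne_zero.mpr hdet,
      (A.erase i1)ᶜ, ?_, ?_⟩
    · intro h
      rw [Finset.compl_eq_univ_iff] at h
      have h3 : A = {i1} := by
        rw [← Finset.insert_erase hi1, h]; rfl
      rw [h3, Finset.sum_singleton] at hvA
      exact hvB i1 hvA
    · have h3 : i1 ∈ (A.erase i1)ᶜ := by simp
      rw [← Finset.add_sum_erase _ _ h3, Function.update_self]
      have h4 : (A.erase i1)ᶜ.erase i1 = Aᶜ := by
        ext l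
        simp only [Finset.mem_erase, Finset.mem_compl, ne_eq]
        constructor
        · rintro ⟨h5, h6⟩ h7
          exact h6 ⟨h5, h7⟩
        · intro h5
          exact ⟨fun h6 => h5 (h6 ▸ hi1), fun h6 => h5 h6.2⟩
      rw [h4]
      have h5 : ∑ l ∈ Aᶜ, Function.update B i1 w l = ∑ l ∈ Aᶜ, B l := by
        refine Finset.sum_congr rfl fun l hl => ?_
        rw [Function.update_of_ne]
        rintro rfl
        exact (Finset.mem_compl.mp hl) hi1
      rw [h5, hw', ← Finset.sum_add_sum_compl A B, ← hvA]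
      abel

/-- The dichotomy for unimodular configurations. -/
theorem dichotomy [Nonempty ι] (V : Finset (ι → ℤ))
    (h0 : (0 : ι → ℝ) ∈ interior (convexHull ℝ (toR '' (V : Set (ι → ℤ)))))
    (hne : ∀ v ∈ V, v ≠ 0)
    (hU : ∀ M : ι → ι → ℤ, (∀ i, M i ∈ V) → |(Matrix.of M).det| ≤ 1) :
    (∃ B : ι → ι → ℤ, |(Matrix.of B).det| = 1 ∧
      V = insert (-∑ i, B i) (Finset.univ.image B)) ∨
    ∃ B : ι → ι → ℤ, (∀ i, B i ∈ V) ∧ (Matrix.of B).det ≠ 0 ∧
      ∃ S : Finset ι, S ≠ Finset.univ ∧ S.Nonempty ∧ -∑ i ∈ S, B i ∈ V := by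
  classical
  obtain ⟨B0, hB0, _, _⟩ := exists_basis_family V h0 0
  obtain ⟨i0⟩ := ‹Nonempty ι›
  set v0 : ι → ℤ := B0 i0 with hv0
  obtain ⟨B, hB, hdet, S, hS⟩ := exists_circuit V h0 hU v0 (hB0 i0)
  have hS0 : ∀ (v : ι → ℤ) (S : Finset ι) (B : ι → ι → ℤ), v ∈ V → -v = ∑ i ∈ S, B i →
      S.Nonempty := by
    intro v S B hv hS
    rw [Finset.nonempty_iff_ne_empty]
    intro h
    rw [h, Finset.sum_empty, neg_eq_zero] at hS
    exact hne v hv hS
  by_cases hSu : S = Finset.univ
  · subst hSu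
    have hw : -∑ i, B i ∈ V := by rw [← hS, neg_neg]; exact hB0 i0
    by_cases hex : ∃ v ∈ V, v ≠ -∑ i, B i ∧ ∀ i, v ≠ B i
    · right
      obtain ⟨v, hv, h1, h2⟩ := hex
      obtain ⟨B', hB', hdet', S', hS', hvS'⟩ := circuit_of_full V hU B hB hdet hw v hv (hne v hv) h1 h2
      refine ⟨B', hB', hdet', S', hS', hS0 v S' B' hv hvS', ?_⟩
      rw [← hvS', neg_neg]; exact hv
    · left
      push Not at hex
      refine ⟨B, ?_, ?_⟩
      · have h1 := hU B hB
        have h2 := Int.one_le_abs hdet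
        omega
      · apply Finset.Subset.antisymm
        · intro v hv
          by_cases h : v = -∑ i, B i
          · rw [h]; exact Finset.mem_insert_self _ _
          · obtain ⟨i, hi⟩ := hex v hv h
            rw [hi]
            exact Finset.mem_insert_of_mem (Finset.mem_image_of_mem _ (Finset.mem_univ i))
        · intro v hv
          rcases Finset.mem_insert.mp hv with h | h
          · rw [h]; exact hw
          · obtain ⟨i, _, rfl⟩ := Finset.mem_image.mp h
            exact hB i
  · right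
    refine ⟨B, hB, hdet, S, hSu, hS0 v0 S B (hB0 i0) hS, ?_⟩
    rw [← hS, neg_neg]; exact hB0 i0

end Pool.Agent.V5helper91.Toric
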