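import Pool.Agent.V5helper91.Toric.Gap

/-!
# The product of a line and a projective space attains the bound
-/

set_option linter.style.haveILetI false
set_option linter.unusedSectionVars false

namespace Pool.Agent.V5helper91.Toric

open MeasureTheory Set

variable {m : ℕ}

/-- the last ray of the second factor -/
def last (m : ℕ) : Fin (m + 1) → ℤ := fun i => if i = 0 then 0 else -1

/-- unit vectors -/
def ev (i : Fin (m + 1)) : Fin (m + 1) → ℤ := Pi.single i 1

/-- The rays of the fan of `ℙ¹ × ℙ^m`. -/
def rays (m : ℕ) : Finset (Fin (m + 1) → ℤ) :=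
  insert (-(ev 0)) (insert (last m) (Finset.univ.image (ev (m := m))))

theorem mem_rays {v : Fin (m + 1) → ℤ} :
    v ∈ rays m ↔ v = -(ev 0) ∨ v = last m ∨ ∃ i, v = ev i := by
  unfold rays
  simp only [Finset.mem_insert, Finset.mem_image, Finset.mem_univ, true_and]
  constructor
  · rintro (h | h | ⟨i, h⟩)
    · exact Or.inl h
    · exact Or.inr (Or.inl h)
    · exact Or.inr (Or.inr ⟨i, h.symm⟩)
  · rintro (h | h | ⟨i, h⟩)
    · exact Or.inl h
    · exact Or.inr (Or.inl h)
    · exact Or.inr (Or.inr ⟨i, h.symm⟩)

theorem sum_ev (x : Fin (m + 1) → ℝ) (i : Fin (m + 1)) : ∑ j, x j * ((ev i j : ℤ) : ℝ) = x i := by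
  rw [Finset.sum_eq_single i]
  · simp [ev]
  · intro j _ hj
    simp [ev, hj]
  · simp

theorem sum_last (x : Fin (m + 1) → ℝ) : ∑ j, x j * ((last m j : ℤ) : ℝ) =
    -∑ j with j ≠ 0, x j := by
  rw [Finset.sum_filter, ← Finset.sum_neg_distrib]
  refine Finset.sum_congr rfl fun j _ => ?_
  unfold last
  by_cases h : j = 0
  · simp [h]
  · simp [h]

theorem mem_momentPolytope_rays (x : Fin (m + 1) → ℝ) : x ∈ momentPolytope (rays m) ↔
    (∀ i, -1 ≤ x i) ∧ x 0 ≤ 1 ∧ ∑ j with j ≠ 0, x j ≤ 1 := by
  constructor
  · intro h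
    refine ⟨fun i => ?_, ?_, ?_⟩
    · have h1 := h (ev i) (mem_rays.mpr (Or.inr (Or.inr ⟨i, rfl⟩)))
      rwa [sum_ev] at h1
    · have h1 := h (-(ev 0)) (mem_rays.mpr (Or.inl rfl))
      simp only [Pi.neg_apply, Int.cast_neg, mul_neg, Finset.sum_neg_distrib, sum_ev] at h1
      linarith
    · have h1 := h (last m) (mem_rays.mpr (Or.inr (Or.inl rfl)))
      rw [sum_last] at h1
      linarith
  · rintro ⟨h1, h2, h3⟩ v hv
    rcases mem_rays.mp hv with rfl | rfl | ⟨i, rfl⟩
    · simp only [Pi.neg_apply, Int.cast_neg, mul_neg, Finset.sum_neg_distrib, sum_ev]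
      linarith
    · rw [sum_last]; linarith
    · rw [sum_ev]; exact h1 i

theorem volume_rays : (volume (momentPolytope (rays m))).toReal =
    (m + 1 : ℝ) ^ m / (Nat.factorial m) * 2 := by
  have hfil : (Finset.univ.filter fun j : Fin (m + 1) => j ≠ 0).card = m := by
    rw [Finset.filter_ne' Finset.univ (0 : Fin (m + 1)), Finset.card_erase_of_mem (Finset.mem_univ _)]
    simp
  have h1 := lintegral_tfp' 0 (fun j : Fin (m + 1) => j ≠ 0) (m + 1) 2 (by positivity) (by norm_num)
  rw [hfil, Fintype.card_fin] at h1
  have h2 := (measurePreserving_add_right (volume : Measure (Fin (m + 1) → ℝ))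
    (fun _ => (1 : ℝ))).lintegral_comp (measurable_tfp 0 (fun j : Fin (m + 1) => j ≠ 0) (m + 1) 2)
  rw [h1] at h2
  have h3 : ∀ x : Fin (m + 1) → ℝ, tfp 0 (fun j : Fin (m + 1) => j ≠ 0) (m + 1) 2
      (x + fun _ => 1) = (momentPolytope (rays m)).indicator (fun _ => 1) x := by
    intro x
    rw [tfp_zero]
    set y : Fin (m + 1) → ℝ := x + fun _ => (1 : ℝ) with hy
    have hyi : ∀ i, y i = x i + 1 := fun i => rfl
    have h4 : y ∈ {y : Fin (m + 1) → ℝ | (∀ i, 0 ≤ y i) ∧
        ∑ i with i ≠ 0, y i ≤ (m + 1 : ℝ) ∧ ∑ i with ¬ i ≠ 0, y i ≤ 2} ↔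
        x ∈ momentPolytope (rays m) := by
      rw [mem_momentPolytope_rays]
      have e1 : ∑ i with i ≠ 0, y i = ∑ i with i ≠ 0, x i + (m : ℝ) := by
        simp only [hyi, Finset.sum_add_distrib, Finset.sum_const, hfil, nsmul_eq_mul, mul_one]
      have e2 : ∑ i with ¬ i ≠ 0, y i = x 0 + 1 := by
        have : (Finset.univ.filter fun j : Fin (m + 1) => ¬ j ≠ 0) = {0} := by
          ext j; simp
        rw [this, Finset.sum_singleton]; rfl
      rw [Set.mem_ofPred_eq, e1, e2]
      simp only [hyi]
      constructor
      · rintro ⟨a, b, c⟩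
        exact ⟨fun i => by linarith [a i], by linarith, by linarith⟩
      · rintro ⟨a, b, c⟩
        exact ⟨fun i => by linarith [a i], by linarith, by linarith⟩
    by_cases h5 : x ∈ momentPolytope (rays m)
    · rw [indicator_of_mem h5, indicator_of_mem (h4.mpr h5)]
    · rw [indicator_of_notMem h5, indicator_of_notMem (fun h => h5 (h4.mp h))]
  simp only [h3] at h2
  rw [lintegral_indicator (isClosed_momentPolytope _).measurableSet, setLIntegral_const,
    one_mul] at h2
  rw [h2, ENNReal.toReal_ofReal (by positivity)]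
  simp

theorem degree_rays : degree (rays m) = 2 * ((m + 1 : ℕ) : ℝ) ^ (m + 1) := by
  unfold degree
  rw [volume_rays, Nat.factorial_succ]
  have : (0 : ℝ) < Nat.factorial m := by positivity
  push_cast
  field_simp
  ring

/-- symmetries -/
theorem bar_of_symm (V : Finset (Fin (m + 1) → ℤ)) (i : Fin (m + 1)) (c : Fin (m + 1) → ℝ)
    (hc : c i = -1)
    (hc2 : ∀ x : Fin (m + 1) → ℝ, x ∈ momentPolytope V ↔
      Function.update x i (∑ j, c j * x j) ∈ momentPolytope V) :
    ∫ x in momentPolytope V, x i = ∫ x in momentPolytope V, ∑ j, c j * x j := by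
  set M : Matrix (Fin (m + 1)) (Fin (m + 1)) ℝ := (1 : Matrix _ _ ℝ).updateRow i c with hM
  have hMx : ∀ x : Fin (m + 1) → ℝ, M.mulVec x = Function.update x i (∑ j, c j * x j) := by
    intro x
    funext k
    by_cases h : k = i
    · subst h
      rw [Function.update_self]
      simp [Matrix.mulVec, dotProduct, hM]
    · rw [Function.update_of_ne h]
      simp only [Matrix.mulVec, dotProduct, hM, Matrix.updateRow_ne h]
      simp [Matrix.one_apply]
  have hdet : M.det = -1 := by
    have h1 := Matrix.det_updateRow_sum (1 : Matrix (Fin (m + 1)) (Fin (m + 1)) ℝ) i c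
    have h2 : (∑ k, c k • (1 : Matrix (Fin (m + 1)) (Fin (m + 1)) ℝ) k) = c := by
      funext j
      simp [Finset.sum_apply, Matrix.one_apply]
    rw [h2, Matrix.det_one, hc] at h1
    rw [hM, h1]; simp
  have hmap := Real.map_matrix_volume_pi_eq_smul_volume_pi (M := M) (by rw [hdet]; norm_num)
  rw [hdet] at hmap
  norm_num at hmap
  have hmp : MeasurePreserving (fun x : Fin (m + 1) → ℝ => M.mulVec x) volume volume :=
    ⟨(LinearMap.continuous_on_pi (Matrix.toLin' M)).measurable, hmap⟩
  have hMM : ∀ x, M.mulVec (M.mulVec x) = x := by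
    intro x
    rw [hMx, hMx]
    funext k
    by_cases h : k = i
    · subst h
      rw [Function.update_self, ← Finset.add_sum_erase _ _ (Finset.mem_univ k),
        Function.update_self, hc]
      have : ∑ j ∈ Finset.univ.erase k, c j * Function.update x k (∑ j, c j * x j) j =
          ∑ j ∈ Finset.univ.erase k, c j * x j := by
        refine Finset.sum_congr rfl fun j hj => ?_
        rw [Function.update_of_ne (Finset.ne_of_mem_erase hj)]
      rw [this, ← Finset.add_sum_erase _ (fun j => c j * x j) (Finset.mem_univ k), hc]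
      ring
    · rw [Function.update_of_ne h, Function.update_of_ne h]
  have hinj : MeasurableEmbedding (fun x : Fin (m + 1) → ℝ => M.mulVec x) := by
    let e : (Fin (m + 1) → ℝ) ≃ᵐ (Fin (m + 1) → ℝ) :=
      { toFun := fun x => M.mulVec x
        invFun := fun x => M.mulVec x
        left_inv := hMM
        right_inv := hMM
        measurable_toFun := hmp.measurable
        measurable_invFun := hmp.measurable }
    exact e.measurableEmbedding
  have h1 := hmp.setIntegral_preimage_emb hinj (fun x => x i) (momentPolytope V)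
  have h2 : (fun x : Fin (m + 1) → ℝ => M.mulVec x) ⁻¹' (momentPolytope V) = momentPolytope V := by
    ext x
    rw [mem_preimage, hMx]
    exact (hc2 x).symm
  rw [h2] at h1
  rw [← h1]
  refine integral_congr_ae (Filter.Eventually.of_forall fun x => ?_)
  show (M.mulVec x) i = _
  rw [hMx, Function.update_self]

theorem bar_rays (hcomp : IsCompact (momentPolytope (rays m))) (i : Fin (m + 1)) :
    ∫ x in momentPolytope (rays m), x i = 0 := by
  have hint : ∀ i : Fin (m + 1), IntegrableOn (fun x : Fin (m + 1) → ℝ => x i)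
      (momentPolytope (rays m)) := fun i =>
    (continuous_apply i).continuousOn.integrableOn_compact hcomp
  by_cases hi : i = 0
  · subst hi
    have h1 := bar_of_symm (rays m) 0 (fun j => if j = 0 then -1 else 0) (by simp) (by
      intro x
      have h2 : ∑ j : Fin (m + 1), (if j = 0 then (-1 : ℝ) else 0) * x j = - x 0 := by
        simp
      rw [h2, mem_momentPolytope_rays, mem_momentPolytope_rays, Function.update_self]
      have h3 : ∑ j with j ≠ 0, Function.update x 0 (-x 0) j = ∑ j with j ≠ 0, x j := by
        refine Finset.sum_congr rfl fun j hj => ?_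
        rw [Function.update_of_ne]
        simpa using hj
      rw [h3]
      constructor
      · rintro ⟨a, b, c⟩
        refine ⟨fun j => ?_, by linarith [a 0], c⟩
        by_cases h : j = 0
        · subst h; rw [Function.update_self]; linarith
        · rw [Function.update_of_ne h]; exact a j
      · rintro ⟨a, b, c⟩
        refine ⟨fun j => ?_, ?_, c⟩
        · by_cases h : j = 0
          · subst h; linarith
          · have := a j; rwa [Function.update_of_ne h] at this
        · have := a 0; rw [Function.update_self] at this; linarith)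
    have h2 : ∀ x : Fin (m + 1) → ℝ, ∑ j : Fin (m + 1), (if j = 0 then (-1 : ℝ) else 0) * x j =
        - x 0 := by
      intro x; simp
    simp only [h2] at h1
    rw [integral_neg] at h1
    linarith
  · have key : ∀ i : Fin (m + 1), i ≠ 0 → ∫ x in momentPolytope (rays m), x i =
        - ∑ j with j ≠ 0, ∫ x in momentPolytope (rays m), x j := by
      intro i hi
      have h2 : ∀ x : Fin (m + 1) → ℝ, ∑ j : Fin (m + 1), (if j = 0 then (0 : ℝ) else -1) * x j =
          - ∑ j with j ≠ 0, x j := by
        intro x
        rw [Finset.sum_filter, ← Finset.sum_neg_distrib]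
        refine Finset.sum_congr rfl fun j _ => ?_
        by_cases h : j = 0
        · simp [h]
        · simp [h]
      have h1 := bar_of_symm (rays m) i (fun j => if j = 0 then 0 else -1) (by simp [hi]) (by
        intro x
        rw [h2, mem_momentPolytope_rays, mem_momentPolytope_rays]
        have himem : i ∈ Finset.univ.filter fun j : Fin (m + 1) => j ≠ 0 := by simp [hi]
        have h3 : ∑ j with j ≠ 0, Function.update x i (-∑ j with j ≠ 0, x j) j = - x i := by
          rw [← Finset.add_sum_erase _ _ himem, Function.update_self]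
          have h4 : ∑ j ∈ (Finset.univ.filter fun j : Fin (m + 1) => j ≠ 0).erase i,
              Function.update x i (-∑ j with j ≠ 0, x j) j =
              ∑ j ∈ (Finset.univ.filter fun j : Fin (m + 1) => j ≠ 0).erase i, x j := by
            refine Finset.sum_congr rfl fun j hj => ?_
            rw [Function.update_of_ne (Finset.ne_of_mem_erase hj)]
          rw [h4, ← Finset.add_sum_erase _ (fun j => x j) himem]
          ring
        rw [h3, Function.update_of_ne (Ne.symm hi)]
        constructor
        · rintro ⟨a, b, c⟩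
          refine ⟨fun j => ?_, b, by linarith [a i]⟩
          by_cases h : j = i
          · subst h; rw [Function.update_self]; linarith
          · rw [Function.update_of_ne h]; exact a j
        · rintro ⟨a, b, c⟩
          refine ⟨fun j => ?_, b, ?_⟩
          · by_cases h : j = i
            · subst h; linarith
            · have := a j; rwa [Function.update_of_ne h] at this
          · have := a i; rw [Function.update_self] at this; linarith)
      simp only [h2] at h1
      rw [integral_neg, integral_finsetSum _ fun j _ => hint j] at h1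
      exact h1
    have hfil : (Finset.univ.filter fun j : Fin (m + 1) => j ≠ 0).card = m := by
      rw [Finset.filter_ne' Finset.univ (0 : Fin (m + 1)),
        Finset.card_erase_of_mem (Finset.mem_univ _)]
      simp
    have hs : ∑ j with j ≠ 0, ∫ x in momentPolytope (rays m), x j =
        (m : ℝ) * (- ∑ j with j ≠ 0, ∫ x in momentPolytope (rays m), x j) := by
      conv_lhs => rw [Finset.sum_congr rfl fun j hj => key j (by simpa using hj)]
      rw [Finset.sum_const, hfil, nsmul_eq_mul]
    have hs0 : ∑ j with j ≠ 0, ∫ x in momentPolytope (rays m), x j = 0 := by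
      have h5 : (0 : ℝ) < m + 1 := by positivity
      have h6 : ((m : ℝ) + 1) * ∑ j with j ≠ 0, ∫ x in momentPolytope (rays m), x j = 0 := by
        linarith
      rcases mul_eq_zero.mp h6 with h | h
      · linarith
      · exact h
    rw [key i hi, hs0, neg_zero]

theorem ev_inj : Function.Injective (ev (m := m)) := by
  intro i j h
  by_contra hne
  have := congrFun h i
  simp [ev, hne] at this

theorem card_rays : (rays m).card = m + 3 := by
  unfold rays
  rw [Finset.card_insert_of_notMem, Finset.card_insert_of_notMem,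
    Finset.card_image_of_injective _ ev_inj, Finset.card_univ, Fintype.card_fin]
  · intro h
    obtain ⟨i, _, hi⟩ := Finset.mem_image.mp h
    have h1 := congrFun hi i
    unfold last at h1
    by_cases h : i = 0
    · subst h; simp [ev] at h1
    · simp [ev, h] at h1
  · intro h
    rcases Finset.mem_insert.mp h with h | h
    · have := congrFun h 0
      simp [ev, last] at this
    · obtain ⟨i, _, hi⟩ := Finset.mem_image.mp h
      have h1 := congrFun hi 0
      by_cases h : i = 0
      · subst h; simp [ev] at h1
      · simp [ev, Ne.symm h] at h1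

theorem not_proj : ¬ IsProjectiveSpace (rays m) := by
  rintro ⟨B, _, h⟩
  have h1 := card_rays (m := m)
  rw [h] at h1
  have h2 := Finset.card_insert_le (-∑ i, B i) (Finset.univ.image B)
  have h3 := Finset.card_image_le (s := (Finset.univ : Finset (Fin (m + 1)))) (f := B)
  rw [Finset.card_univ, Fintype.card_fin] at h3
  omega

theorem notMem_conv {n : ℕ} (V : Set (Fin n → ℤ)) (v : Fin n → ℤ) (a : Fin n → ℝ)
    (h : ∀ w ∈ V, ∑ i, a i * toR w i < ∑ i, a i * toR v i) :
    toR v ∉ convexHull ℝ (toR '' V) := by
  intro hv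
  have hconv : Convex ℝ {u : Fin n → ℝ | ∑ i, a i * u i < ∑ i, a i * toR v i} := by
    refine convex_halfSpace_lt ⟨?_, ?_⟩ _
    · intro a b
      simp [mul_add, Finset.sum_add_distrib]
    · intro c a
      simp only [Pi.smul_apply, smul_eq_mul, Finset.mul_sum]
      exact Finset.sum_congr rfl fun i _ => by ring
  have h1 := convexHull_min (s := toR '' V)
    (t := {u : Fin n → ℝ | ∑ i, a i * u i < ∑ i, a i * toR v i})
    (by rintro _ ⟨w, hw, rfl⟩; exact h w hw) hconv
  have h2 : ∑ i, a i * toR v i < ∑ i, a i * toR v i := h1 hv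
  exact lt_irrefl _ h2

theorem vertex_rays (hm : 1 ≤ m) (v : Fin (m + 1) → ℤ) (hv : v ∈ rays m) :
    toR v ∉ convexHull ℝ (toR '' ((rays m : Set (Fin (m + 1) → ℤ)) \ {v})) := by
  have hpair : ∀ (a : Fin (m + 1) → ℝ) i, ∑ j, a j * toR (ev i) j = a i := fun a i => sum_ev a i
  have hpairneg : ∀ (a : Fin (m + 1) → ℝ), ∑ j, a j * toR (-(ev 0)) j = - a 0 := by
    intro a
    rw [← sum_ev a 0, ← Finset.sum_neg_distrib]
    exact Finset.sum_congr rfl fun j _ => by simp [toR]
  have hpairlast : ∀ (a : Fin (m + 1) → ℝ), ∑ j, a j * toR (last m) j = -∑ j with j ≠ 0, a j :=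
    fun a => sum_last a
  rcases mem_rays.mp hv with rfl | rfl | ⟨i, rfl⟩
  · apply notMem_conv _ _ (fun j => if j = 0 then -1 else 0)
    rintro w ⟨hw, hne⟩
    rw [hpairneg]
    rcases mem_rays.mp hw with rfl | rfl | ⟨i, rfl⟩
    · exact absurd rfl hne
    · rw [hpairlast, Finset.sum_filter]
      rw [Finset.sum_eq_zero]
      · simp
      · intro j _; by_cases h : j = 0 <;> simp [h]
    · rw [hpair]
      by_cases h : i = 0 <;> simp [h]
  · apply notMem_conv _ _ (fun j => if j = 0 then 0 else -1)
    rintro w ⟨hw, hne⟩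
    have hlast : (1 : ℝ) ≤ -∑ j : Fin (m + 1) with j ≠ 0, (if j = 0 then (0 : ℝ) else -1) := by
      have hfil : (Finset.univ.filter fun j : Fin (m + 1) => j ≠ 0).card = m := by
        rw [Finset.filter_ne' Finset.univ (0 : Fin (m + 1)),
          Finset.card_erase_of_mem (Finset.mem_univ _)]
        simp
      rw [Finset.sum_congr rfl fun j hj => if_neg (by simpa using hj), Finset.sum_const, hfil]
      simp only [nsmul_eq_mul, mul_neg, mul_one, neg_neg]
      exact_mod_cast hm
    rw [hpairlast]
    rcases mem_rays.mp hw with rfl | rfl | ⟨i, rfl⟩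
    · rw [hpairneg]
      simp only [if_true, neg_zero]
      linarith
    · exact absurd rfl hne
    · rw [hpair]
      have : (if i = 0 then (0 : ℝ) else -1) ≤ 0 := by split_ifs <;> norm_num
      linarith
  · apply notMem_conv _ _ (fun j => if j = i then 1 else 0)
    rintro w ⟨hw, hne⟩
    rw [hpair, if_pos rfl]
    rcases mem_rays.mp hw with rfl | rfl | ⟨k, rfl⟩
    · rw [hpairneg]
      have : (0 : ℝ) ≤ (if (0 : Fin (m + 1)) = i then (1 : ℝ) else 0) := by split_ifs <;> norm_num
      linarith
    · rw [hpairlast]
      have : (0 : ℝ) ≤ ∑ j with j ≠ 0, (if j = i then (1 : ℝ) else 0) :=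
        Finset.sum_nonneg fun j _ => by split_ifs <;> norm_num
      linarith
    · rw [hpair]
      have : k ≠ i := by rintro rfl; exact hne rfl
      simp [this]

theorem primitive_rays (hm : 1 ≤ m) (v : Fin (m + 1) → ℤ) (hv : v ∈ rays m) (d : ℤ)
    (w : Fin (m + 1) → ℤ) (h : v = d • w) : IsUnit d := by
  have key : ∀ i, (v i = 1 ∨ v i = -1) → IsUnit d := by
    intro i hi
    have h1 : v i = d * w i := by rw [h]; simp
    rcases hi with hi | hi
    · rw [hi] at h1
      exact IsUnit.of_mul_eq_one _ h1.symm
    · rw [hi] at h1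
      exact IsUnit.of_mul_eq_one (-(w i)) (by linarith)
  rcases mem_rays.mp hv with rfl | rfl | ⟨i, rfl⟩
  · exact key 0 (Or.inr (by simp [ev]))
  · refine key ⟨1, by omega⟩ (Or.inr ?_)
    unfold last
    rw [if_neg]
    intro h
    have := congrArg Fin.val h
    simp at this
  · exact key i (Or.inl (by simp [ev]))

theorem interior_rays (hm : 1 ≤ m) : (0 : Fin (m + 1) → ℝ) ∈
    interior (convexHull ℝ (toR '' (rays m : Set (Fin (m + 1) → ℤ)))) := by
  have hm0 : (0 : ℝ) < m := by exact_mod_cast hm
  rw [mem_interior_iff_mem_nhds, Metric.mem_nhds_iff]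
  refine ⟨1 / ((m + 1) * m), by positivity, fun u hu => ?_⟩
  set Q := convexHull ℝ (toR '' (rays m : Set (Fin (m + 1) → ℤ))) with hQ
  have hconv : Convex ℝ Q := convex_convexHull ℝ _
  have hsub : ∀ v ∈ rays m, toR v ∈ Q := fun v hv => subset_convexHull ℝ _ ⟨v, hv, rfl⟩
  have hev : ∀ i, toR (ev (m := m) i) = Pi.single i (1 : ℝ) := by
    intro i
    funext j
    by_cases h : j = i
    · subst h; simp [toR, ev]
    · simp [toR, ev, h]
  have hpos : ∀ i : Fin (m + 1), Pi.single i (1 : ℝ) ∈ Q := by
    intro i
    rw [← hev]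
    exact hsub _ (mem_rays.mpr (Or.inr (Or.inr ⟨i, rfl⟩)))
  have hseg1 : ∀ (i : Fin (m + 1)) (c s : ℝ), 0 < c → Pi.single i (-c) ∈ Q → |s| ≤ c → c ≤ 1 →
      Pi.single i s ∈ Q := by
    intro i c s hc hQc hs hc1
    rw [abs_le] at hs
    have h1 : Pi.single i s = (1 - (s + c) / (1 + c)) • (Pi.single i (-c) : Fin (m + 1) → ℝ) +
        ((s + c) / (1 + c)) • Pi.single i (1 : ℝ) := by
      rw [← Pi.single_smul, ← Pi.single_smul, ← Pi.single_add]
      congr 1
      simp only [smul_eq_mul]
      have : (1 + c) ≠ 0 := by positivity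
      field_simp
      ring
    rw [h1]
    have h2 : (0 : ℝ) < 1 + c := by positivity
    refine hconv hQc (hpos i) ?_ ?_ (by ring)
    · rw [sub_nonneg, div_le_one h2]; linarith [hs.2]
    · exact div_nonneg (by linarith) h2.le
  have hneg : ∀ i : Fin (m + 1), Pi.single i (-(1 / (m : ℝ))) ∈ Q := by
    intro i
    by_cases hi : i = 0
    · subst hi
      have h1 : Pi.single (0 : Fin (m + 1)) (-(1 : ℝ)) ∈ Q := by
        have h2 := hsub _ (mem_rays.mpr (Or.inl rfl))
        rw [toR_neg, hev] at h2
        rwa [← Pi.single_neg] at h2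
      refine hseg1 0 1 _ one_pos h1 ?_ le_rfl
      rw [abs_neg, abs_of_nonneg (by positivity), div_le_one hm0]
      exact_mod_cast hm
    · have himem : i ∈ Finset.univ.filter fun j : Fin (m + 1) => j ≠ 0 := by simp [hi]
      have hfil : (Finset.univ.filter fun j : Fin (m + 1) => j ≠ 0).card = m := by
        rw [Finset.filter_ne' Finset.univ (0 : Fin (m + 1)),
          Finset.card_erase_of_mem (Finset.mem_univ _)]
        simp
      have h1 : Pi.single i (-(1 / (m : ℝ))) = ∑ l with l ≠ 0, (1 / (m : ℝ)) •
          (if l = i then toR (last m) else toR (ev l)) := by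
        rw [← Finset.smul_sum, ← Finset.add_sum_erase _ _ himem, if_pos rfl]
        have h2 : ∑ x ∈ (Finset.univ.filter fun j : Fin (m + 1) => j ≠ 0).erase i,
            (if x = i then toR (last m) else toR (ev x)) =
            ∑ x ∈ (Finset.univ.filter fun j : Fin (m + 1) => j ≠ 0).erase i, toR (ev x) := by
          refine Finset.sum_congr rfl fun j hj => ?_
          rw [if_neg (Finset.ne_of_mem_erase hj)]
        rw [h2]
        funext k
        simp only [Pi.smul_apply, Pi.add_apply, Finset.sum_apply, smul_eq_mul]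
        by_cases hk0 : k = 0
        · subst hk0
          rw [Finset.sum_eq_zero]
          · simp [toR, last, Ne.symm hi]
          · intro j hj
            have hj0 : j ≠ 0 := by
              have := Finset.mem_of_mem_erase hj
              simpa using this
            simp [toR, ev, Ne.symm hj0]
        · by_cases hki : k = i
          · subst hki
            rw [Finset.sum_eq_zero]
            · simp [toR, last, hk0]
            · intro j hj
              simp [toR, ev, Ne.symm (Finset.ne_of_mem_erase hj)]
          · rw [Finset.sum_eq_single k]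
            · simp [toR, last, hk0, ev, hki]
            · intro j _ hj
              simp [toR, ev, Ne.symm hj]
            · intro hj
              exact absurd (Finset.mem_erase.mpr ⟨hki, by simp [hk0]⟩) hj
      rw [h1]
      refine hconv.sum_mem (fun _ _ => by positivity) ?_ ?_
      · rw [Finset.sum_const, hfil, nsmul_eq_mul]
        field_simp
      · intro l _
        split_ifs
        · exact hsub _ (mem_rays.mpr (Or.inr (Or.inl rfl)))
        · exact hsub _ (mem_rays.mpr (Or.inr (Or.inr ⟨l, rfl⟩)))
  have h1 : u = ∑ i, (1 / ((m : ℝ) + 1)) • (Pi.single i (((m : ℝ) + 1) * u i) : Fin (m + 1) → ℝ) := by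
    conv_lhs => rw [← Finset.univ_sum_single u]
    refine Finset.sum_congr rfl fun i _ => ?_
    rw [← Pi.single_smul]
    congr 1
    simp only [smul_eq_mul]
    field_simp
  rw [h1]
  refine hconv.sum_mem (fun _ _ => by positivity) ?_ ?_
  · rw [Finset.sum_const, Finset.card_univ, Fintype.card_fin, nsmul_eq_mul]
    push_cast
    field_simp
  · intro i _
    refine hseg1 i (1 / m) _ (by positivity) (hneg i) ?_ ?_
    · rw [mem_ball_zero_iff, pi_norm_lt_iff (by positivity)] at hu
      have h2 := hu i
      rw [Real.norm_eq_abs] at h2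
      rw [abs_mul, abs_of_nonneg (by positivity : (0 : ℝ) ≤ (m : ℝ) + 1)]
      rw [lt_div_iff₀ (by positivity)] at h2
      rw [le_div_iff₀ hm0]
      nlinarith
    · rw [div_le_one hm0]; exact_mod_cast hm

end Pool.Agent.V5helper91.Toric
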