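import Mathlib

/-!
# The elementary inequalities
-/

namespace Pool.Agent.V5helper91.Toric

open Nat

/-- `(1 + 1/m)^m` is increasing -/
theorem step_le (m : ℕ) (hm : 1 ≤ m) :
    ((m + 1 : ℝ) / m) ^ m ≤ ((m + 2 : ℝ) / (m + 1)) ^ (m + 1) := by
  have hm0 : (0 : ℝ) < m := by exact_mod_cast hm
  have h1 := one_add_mul_le_pow (a := -(1 / (m + 1 : ℝ) ^ 2)) (by
    have : (1 : ℝ) / (m + 1 : ℝ) ^ 2 ≤ 1 := by
      rw [div_le_one (by positivity)]
      nlinarith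
    linarith) (m + 1)
  have e1 : 1 + ((m + 1 : ℕ) : ℝ) * -(1 / (m + 1 : ℝ) ^ 2) = m / (m + 1) := by
    push_cast
    field_simp
    ring
  have e2 : 1 + -(1 / (m + 1 : ℝ) ^ 2) = (m / (m + 1)) * ((m + 2) / (m + 1)) := by
    field_simp
    ring
  rw [e1, e2, mul_pow] at h1
  have e3 : ((m + 1 : ℝ) / m) ^ m * (m / (m + 1) : ℝ) ^ (m + 1) = m / (m + 1) := by
    rw [pow_succ, ← mul_assoc, ← mul_pow]
    have : ((m + 1 : ℝ) / m) * (m / (m + 1)) = 1 := by field_simp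
    rw [this, one_pow, one_mul]
  have hpos : (0 : ℝ) < (m / (m + 1) : ℝ) ^ (m + 1) := by positivity
  rw [← mul_le_mul_iff_of_pos_right hpos, e3, mul_comm (((m + 2 : ℝ) / (m + 1)) ^ (m + 1))]
  exact h1

theorem mono_h (a m : ℕ) (ha : 1 ≤ a) (ham : a ≤ m) :
    ((a + 1 : ℝ) / a) ^ a ≤ ((m + 1 : ℝ) / m) ^ m := by
  induction m, ham using Nat.le_induction with
  | base => exact le_rfl
  | succ m hm ih =>
    refine ih.trans ((step_le m (ha.trans hm)).trans (le_of_eq ?_))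
    push_cast
    ring

/-- the function `C(n,k)(k+1)^k(n-k+1)^(n-k)` -/
noncomputable def ff (n k : ℕ) : ℝ :=
  (n.choose k : ℝ) * (k + 1 : ℝ) ^ k * ((n - k : ℕ) + 1 : ℝ) ^ (n - k)

theorem ff_step (n k : ℕ) (h : 2 * k + 2 ≤ n) : ff n (k + 1) ≤ ff n k := by
  obtain ⟨m, rfl⟩ : ∃ m, n = k + (m + 1) := ⟨n - k - 1, by omega⟩
  have hkm : k + 1 ≤ m + 1 := by omega
  unfold ff
  have e1 : k + (m + 1) - (k + 1) = m := by omega
  have e2 : k + (m + 1) - k = m + 1 := by omega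
  rw [e1, e2]
  have h1 := mono_h (k + 1) (m + 1) (by omega) hkm
  have h2 : ((k + (m + 1)).choose (k + 1) : ℝ) * (k + 1) =
      ((k + (m + 1)).choose k : ℝ) * (m + 1) := by
    have := Nat.choose_succ_right_eq (k + (m + 1)) k
    rw [e2] at this
    exact_mod_cast this
  have hk : (0 : ℝ) < k + 1 := by positivity
  have hm : (0 : ℝ) < m + 1 := by positivity
  rw [div_pow, div_pow, div_le_div_iff₀ (by positivity) (by positivity)] at h1
  push_cast at h1 ⊢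
  rw [← mul_le_mul_iff_of_pos_right hk]
  have hc : (0 : ℝ) ≤ ((k + (m + 1)).choose k : ℝ) := by positivity
  calc ((k + (m + 1)).choose (k + 1) : ℝ) * (k + 1 + 1) ^ (k + 1) * (m + 1) ^ m * (k + 1)
      = (((k + (m + 1)).choose (k + 1) : ℝ) * (k + 1)) * (k + 1 + 1) ^ (k + 1) * (m + 1) ^ m := by
        ring
    _ = ((k + (m + 1)).choose k : ℝ) * ((k + 1 + 1) ^ (k + 1) * (m + 1) ^ (m + 1)) := by
        rw [h2]; ring
    _ ≤ ((k + (m + 1)).choose k : ℝ) * ((m + 1 + 1) ^ (m + 1) * (k + 1) ^ (k + 1)) :=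
        mul_le_mul_of_nonneg_left h1 hc
    _ = ((k + (m + 1)).choose k : ℝ) * (k + 1) ^ k * (m + 1 + 1) ^ (m + 1) * (k + 1) := by ring

theorem ff_one (n : ℕ) (hn : 1 ≤ n) : ff n 1 = 2 * (n : ℝ) ^ n := by
  unfold ff
  obtain ⟨m, rfl⟩ : ∃ m, n = m + 1 := ⟨n - 1, by omega⟩
  rw [Nat.choose_one_right, Nat.add_sub_cancel]
  push_cast
  ring

theorem ff_le_half (n k : ℕ) (hk : 1 ≤ k) (h : 2 * k ≤ n) : ff n k ≤ 2 * (n : ℝ) ^ n := by
  induction k, hk using Nat.le_induction with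
  | base => exact (ff_one n (by omega)).le
  | succ k hk ih => exact (ff_step n k (by omega)).trans (ih (by omega))

theorem ff_symm (n k : ℕ) (h : k ≤ n) : ff n (n - k) = ff n k := by
  unfold ff
  rw [Nat.choose_symm h, Nat.sub_sub_self h]
  ring

theorem ff_le (n k : ℕ) (hk : 1 ≤ k) (hkn : k < n) : ff n k ≤ 2 * (n : ℝ) ^ n := by
  by_cases h : 2 * k ≤ n
  · exact ff_le_half n k hk h
  · rw [← ff_symm n k hkn.le]
    exact ff_le_half n (n - k) (by omega) (by omega)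

theorem succ_pow_le (n : ℕ) (hn : 1 ≤ n) : (n + 1 : ℝ) ^ n ≤ 4 * (n : ℝ) ^ n := by
  have hn0 : (0 : ℝ) < n := by exact_mod_cast hn
  have h1 : (1 / (n : ℝ) + 1) ≤ Real.exp (1 / n) := Real.add_one_le_exp _
  have h2 : (1 / (n : ℝ) + 1) ^ n ≤ Real.exp 1 := by
    refine (pow_le_pow_left₀ (by positivity) h1 n).trans (le_of_eq ?_)
    rw [← Real.exp_nat_mul]
    congr 1
    field_simp
  have h3 : (n + 1 : ℝ) ^ n = (1 / (n : ℝ) + 1) ^ n * (n : ℝ) ^ n := by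
    rw [← mul_pow]; congr 1; field_simp
    ring
  rw [h3]
  have h4 : Real.exp 1 ≤ 4 := by
    have := Real.exp_one_lt_d9
    linarith
  gcongr
  exact h2.trans h4

end Pool.Agent.V5helper91.Toric
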