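import Pool.Agent.V5helper91.Toric.Ineq
import Pool.Agent.V5helper91.Toric.Comb
import Pool.Agent.V5helper91.Toric.Numeric

/-!
# The upper bound for the degree of toric K-semistable Fano varieties
-/

set_option linter.style.haveILetI false
set_option linter.unusedSectionVars false

namespace Pool.Agent.V5helper91.Toric

open MeasureTheory Set

variable {n : ℕ}

/-- The moment polytope `{x : ⟨x, v⟩ ≥ -1 for all v ∈ V}`. -/
def momentPolytope (V : Finset (Fin n → ℤ)) : Set (Fin n → ℝ) :=
  {x | ∀ v ∈ V, -1 ≤ ∑ i, x i * (v i : ℝ)}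

theorem isClosed_momentPolytope (V : Finset (Fin n → ℤ)) : IsClosed (momentPolytope V) := by
  have : momentPolytope V = ⋂ v ∈ V, {x : Fin n → ℝ | -1 ≤ ∑ i, x i * (v i : ℝ)} := by
    ext x; simp [momentPolytope]
  rw [this]
  refine isClosed_biInter fun v _ => isClosed_le continuous_const ?_
  exact continuous_finsetSum _ fun i _ => (continuous_apply i).mul continuous_const

theorem pair_conv (V : Finset (Fin n → ℤ)) (x : Fin n → ℝ) (hx : x ∈ momentPolytope V)
    (u : Fin n → ℝ) (hu : u ∈ convexHull ℝ (toR '' (V : Set (Fin n → ℤ)))) :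
    -1 ≤ ∑ i, x i * u i := by
  have hconv : Convex ℝ {u : Fin n → ℝ | -1 ≤ ∑ i, x i * u i} := by
    refine convex_halfSpace_ge ⟨?_, ?_⟩ (-1)
    · intro a b
      simp [mul_add, Finset.sum_add_distrib]
    · intro c a
      simp only [Pi.smul_apply, smul_eq_mul, Finset.mul_sum]
      exact Finset.sum_congr rfl fun i _ => by ring
  have h := convexHull_min (s := toR '' (V : Set (Fin n → ℤ))) (t := {u : Fin n → ℝ | -1 ≤ ∑ i, x i * u i})
    (by rintro _ ⟨v, hv, rfl⟩; exact hx v hv) hconv
  exact h hu

theorem isCompact_momentPolytope (V : Finset (Fin n → ℤ))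
    (h0 : (0 : Fin n → ℝ) ∈ interior (convexHull ℝ (toR '' (V : Set (Fin n → ℤ))))) :
    IsCompact (momentPolytope V) := by
  rw [mem_interior_iff_mem_nhds, Metric.mem_nhds_iff] at h0
  obtain ⟨ε, hε, hball⟩ := h0
  refine Metric.isCompact_of_isClosed_isBounded (isClosed_momentPolytope V) ?_
  rw [isBounded_iff_forall_norm_le]
  refine ⟨2 / ε, fun x hx => ?_⟩
  rw [pi_norm_le_iff_of_nonneg (by positivity)]
  intro i
  have key : ∀ s : ℝ, |s| = 1 → -1 ≤ x i * (s * (ε / 2)) := by
    intro s hs
    have h1 : Pi.single i (s * (ε / 2)) ∈ Metric.ball (0 : Fin n → ℝ) ε := by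
      rw [mem_ball_zero_iff, Pi.norm_single, norm_mul, Real.norm_eq_abs, hs, one_mul,
        Real.norm_of_nonneg (by positivity)]
      linarith
    have h2 := pair_conv V x hx _ (hball h1)
    rw [Finset.sum_eq_single i] at h2
    · simpa using h2
    · intro j _ hj
      rw [Pi.single_eq_of_ne hj, mul_zero]
    · simp
  have h1 := key 1 (by norm_num)
  have h2 := key (-1) (by norm_num)
  rw [Real.norm_eq_abs, abs_le]
  constructor
  · rw [neg_le, ← sub_nonneg] 
    have : 0 ≤ (2 / ε + x i) * (ε / 2) := by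
      rw [add_mul]; field_simp; nlinarith
    have h3 := nonneg_of_mul_nonneg_left this (by positivity : 0 < ε / 2)
    linarith
  · have : 0 ≤ (2 / ε - x i) * (ε / 2) := by
      rw [sub_mul]; field_simp; nlinarith
    have h3 := nonneg_of_mul_nonneg_left this (by positivity : 0 < ε / 2)
    linarith

/-- The degree `(-K_X)^n = n! vol(P)`. -/
noncomputable def degree (V : Finset (Fin n → ℤ)) : ℝ :=
  (Nat.factorial n : ℝ) * (volume (momentPolytope V)).toReal

/-- `V` is the set of rays of the fan of the projective space. -/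
def IsProjectiveSpace (V : Finset (Fin n → ℤ)) : Prop :=
  ∃ B : Fin n → Fin n → ℤ, |(Matrix.of B).det| = 1 ∧
    V = insert (-∑ i, B i) (Finset.univ.image B)

theorem volume_bound (V : Finset (Fin n → ℤ))
    (h0 : (0 : Fin n → ℝ) ∈ interior (convexHull ℝ (toR '' (V : Set (Fin n → ℤ)))))
    (hbar : ∀ i, ∫ x in momentPolytope V, x i = 0) (B : Fin n → Fin n → ℤ) (hB : ∀ i, B i ∈ V)
    (hdet : (Matrix.of B).det ≠ 0) (S : Finset (Fin n))
    (hS : ∀ x ∈ momentPolytope V, ∑ i ∈ S, ∑ j, x j * (B i j : ℝ) ≤ 1) :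
    |((Matrix.of B).det : ℝ)| * degree V ≤ ff n S.card := by
  have hmul : ∀ (x : Fin n → ℝ) i, ((Matrix.of fun i => toR (B i)).mulVec x) i =
      ∑ j, x j * (B i j : ℝ) := by
    intro x i
    simp only [Matrix.mulVec, dotProduct, Matrix.of_apply, toR]
    exact Finset.sum_congr rfl fun j _ => mul_comm _ _
  have h := main_ineq (momentPolytope V) (isCompact_momentPolytope V h0)
    (Matrix.of fun i => toR (B i)) (by rw [det_toR]; exact_mod_cast hdet) S
    (fun x hx i => by rw [hmul]; exact hx _ (hB i))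
    (fun x hx => by simp only [hmul]; exact hS x hx) hbar
  rw [det_toR] at h
  have hcard : S.card ≤ n := by
    have := Finset.card_le_univ S
    rwa [Fintype.card_fin] at this
  rw [Fintype.card_fin] at h
  unfold degree ff
  have hch : ((n.choose S.card : ℕ) : ℝ) = (Nat.factorial n : ℝ) /
      ((Nat.factorial S.card : ℝ) * (Nat.factorial (n - S.card) : ℝ)) :=
    Nat.cast_choose ℝ hcard
  have hn : (0 : ℝ) < Nat.factorial n := by positivity
  calc |((Matrix.of B).det : ℝ)| * ((Nat.factorial n : ℝ) * (volume (momentPolytope V)).toReal)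
      = (Nat.factorial n : ℝ) * (|((Matrix.of B).det : ℝ)| *
        (volume (momentPolytope V)).toReal) := by ring
    _ ≤ (Nat.factorial n : ℝ) * (((S.card + 1 : ℝ) ^ S.card / (Nat.factorial S.card)) *
      ((n - S.card : ℕ) + 1 : ℝ) ^ (n - S.card) / (Nat.factorial (n - S.card))) := by
        gcongr
    _ = _ := by
        rw [hch]
        have h1 : (0 : ℝ) < Nat.factorial S.card := by positivity
        have h2 : (0 : ℝ) < Nat.factorial (n - S.card) := by positivity
        field_simp

theorem degree_nonneg (V : Finset (Fin n → ℤ)) : 0 ≤ degree V := by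
  unfold degree; positivity

/-- **The gap theorem for toric varieties.** -/
theorem gap (hn : 1 ≤ n) (V : Finset (Fin n → ℤ))
    (h0 : (0 : Fin n → ℝ) ∈ interior (convexHull ℝ (toR '' (V : Set (Fin n → ℤ)))))
    (hne : ∀ v ∈ V, v ≠ 0) (hbar : ∀ i, ∫ x in momentPolytope V, x i = 0)
    (hproj : ¬ IsProjectiveSpace V) : degree V ≤ 2 * (n : ℝ) ^ n := by
  classical
  haveI : Nonempty (Fin n) := ⟨⟨0, by omega⟩⟩
  by_cases hU : ∀ M : Fin n → Fin n → ℤ, (∀ i, M i ∈ V) → |(Matrix.of M).det| ≤ 1
  · rcases dichotomy V h0 hne hU with h | ⟨B, hB, hdet, S, hS, hS0, hSV⟩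
    · exact absurd h hproj
    · have h1 := volume_bound V h0 hbar B hB hdet S (fun x hx => by
        have h2 := hx _ hSV
        have h3 : ∑ i, x i * (((-∑ i ∈ S, B i) i : ℤ) : ℝ) =
            - ∑ i ∈ S, ∑ j, x j * (B i j : ℝ) := by
          have h4 : ∀ j, (((-∑ i ∈ S, B i) j : ℤ) : ℝ) = -∑ i ∈ S, (B i j : ℝ) := by
            intro j; simp [Finset.sum_apply]
          simp only [h4, mul_neg, Finset.sum_neg_distrib, Finset.mul_sum]
          rw [Finset.sum_comm]
        rw [h3] at h2
        linarith)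
      have h2 : (1 : ℝ) ≤ |((Matrix.of B).det : ℝ)| := by
        have := Int.one_le_abs hdet
        exact_mod_cast this
      have h3 : degree V ≤ |((Matrix.of B).det : ℝ)| * degree V := by
        have := degree_nonneg V
        nlinarith
      have hcard : S.card < n := by
        obtain ⟨x, hx⟩ : ∃ x, x ∉ S := by
          by_contra hcon
          push Not at hcon
          exact hS (Finset.eq_univ_iff_forall.mpr hcon)
        have := Finset.card_lt_univ_of_notMem hx
        rwa [Fintype.card_fin] at this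
      exact h3.trans (h1.trans (ff_le n S.card (Finset.card_pos.mpr hS0) hcard))
  · push Not at hU
    obtain ⟨M, hM, hdet⟩ := hU
    have hdet2 : 2 ≤ |(Matrix.of M).det| := by omega
    have hdet0 : (Matrix.of M).det ≠ 0 := by
      intro h; rw [h] at hdet2; simp at hdet2
    have h1 := volume_bound V h0 hbar M hM hdet0 ∅ (fun x hx => by simp)
    have h2 : (2 : ℝ) ≤ |((Matrix.of M).det : ℝ)| := by exact_mod_cast hdet2
    have h3 : 2 * degree V ≤ |((Matrix.of M).det : ℝ)| * degree V := by
      have := degree_nonneg V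
      nlinarith
    have h4 : ff n (Finset.card (∅ : Finset (Fin n))) = (n + 1 : ℝ) ^ n := by
      simp [ff]
    rw [h4] at h1
    have h5 := succ_pow_le n hn
    linarith

end Pool.Agent.V5helper91.Toric
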