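import Pool.Agent.V5helper91.Toric.Simplex

/-!
# The volume inequality for bodies with barycentre zero
-/

set_option linter.style.haveILetI false
set_option linter.unusedSectionVars false

namespace Pool.Agent.V5helper91.Toric

open MeasureTheory Set

variable {ι : Type} [Fintype ι] [DecidableEq ι]

/-- test function -/
noncomputable def tfp (j : ℕ) (p : ι → Prop) [DecidablePred p] (T1 T2 : ℝ) (y : ι → ℝ) : ENNReal :=
  simp {i // p i} 0 T1 (fun i => y i) * simp {i // ¬ p i} j T2 (fun i => y i)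

theorem measurable_tfp (j : ℕ) (p : ι → Prop) [DecidablePred p] (T1 T2 : ℝ) :
    Measurable (tfp j p T1 T2) := by
  unfold tfp
  refine Measurable.mul ?_ ?_
  · exact (measurable_simp _ 0 T1).comp (by fun_prop)
  · exact (measurable_simp _ j T2).comp (by fun_prop)

theorem lintegral_tfp (j : ℕ) (p : ι → Prop) [DecidablePred p] (T1 T2 : ℝ) (h1 : 0 ≤ T1)
    (h2 : 0 ≤ T2) :
    ∫⁻ y : ι → ℝ, tfp j p T1 T2 y = ENNReal.ofReal (T1 ^ Fintype.card {i // p i} /
      (Nat.factorial (Fintype.card {i // p i})) *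
      (T2 ^ (Fintype.card {i // ¬ p i} + j) * (Nat.factorial j) /
        (Nat.factorial (Fintype.card {i // ¬ p i} + j)))) := by
  have h := volume_preserving_piEquivPiSubtypeProd (fun _ : ι => ℝ) p
  have h3 : ∀ y : ι → ℝ, tfp j p T1 T2 y = (fun z : ({i // p i} → ℝ) × ({i // ¬ p i} → ℝ) =>
      simp {i // p i} 0 T1 z.1 * simp {i // ¬ p i} j T2 z.2)
      ((MeasurableEquiv.piEquivPiSubtypeProd (fun _ : ι => ℝ) p) y) := fun y => rfl
  simp only [h3]
  have h4 : Measurable (fun z : ({i // p i} → ℝ) × ({i // ¬ p i} → ℝ) =>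
      simp {i // p i} 0 T1 z.1 * simp {i // ¬ p i} j T2 z.2) :=
    ((measurable_simp _ 0 T1).comp measurable_fst).mul
      ((measurable_simp _ j T2).comp measurable_snd)
  have h5 := h.lintegral_comp h4
  rw [h5, Measure.volume_eq_prod, lintegral_prod_mul (measurable_simp _ 0 T1).aemeasurable
    (measurable_simp _ j T2).aemeasurable, lintegral_simp _ _ _ h1, lintegral_simp _ _ _ h2,
    ← ENNReal.ofReal_mul (by positivity)]
  congr 1
  simp

theorem tfp_eq (p : ι → Prop) [DecidablePred p] (y : ι → ℝ) (T1 T2 : ℝ) (hy : ∀ i, 0 ≤ y i)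
    (hS : ∑ i with p i, y i ≤ T1) :
    tfp 1 p T1 T2 y = ENNReal.ofReal (T2 - ∑ i with ¬ p i, y i) := by
  unfold tfp
  have e1 : ∑ i : {i // p i}, y i = ∑ i with p i, y i := by
    rw [Finset.sum_subtype (p := p) (s := Finset.univ.filter p) (by simp)]
  have e2 : ∑ i : {i // ¬ p i}, y i = ∑ i with ¬ p i, y i := by
    rw [Finset.sum_subtype (p := fun i => ¬ p i) (s := Finset.univ.filter fun i => ¬ p i) (by simp)]
  have e3 : simp {i // p i} 0 T1 (fun i => y i) = 1 := by
    unfold simp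
    rw [indicator_of_mem]
    · simp
    · exact ⟨fun i => hy i, by rw [e1]; exact hS⟩
  rw [e3, one_mul]
  unfold simp
  by_cases h : ∑ i with ¬ p i, y i ≤ T2
  · rw [indicator_of_mem]
    · simp only [pow_one, e2]
    · exact ⟨fun i => hy i, by rw [e2]; exact h⟩
  · rw [indicator_of_notMem (fun hh => h (by rw [← e2]; exact hh.2))]
    rw [ENNReal.ofReal_of_nonpos (by linarith)]

theorem tfp_zero (p : ι → Prop) [DecidablePred p] (y : ι → ℝ) (T1 T2 : ℝ) :
    tfp 0 p T1 T2 y = {y : ι → ℝ | (∀ i, 0 ≤ y i) ∧ ∑ i with p i, y i ≤ T1 ∧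
      ∑ i with ¬ p i, y i ≤ T2}.indicator (fun _ => 1) y := by
  have e1 : ∑ i : {i // p i}, y i = ∑ i with p i, y i := by
    rw [Finset.sum_subtype (p := p) (s := Finset.univ.filter p) (by simp)]
  have e2 : ∑ i : {i // ¬ p i}, y i = ∑ i with ¬ p i, y i := by
    rw [Finset.sum_subtype (p := fun i => ¬ p i) (s := Finset.univ.filter fun i => ¬ p i) (by simp)]
  unfold tfp simp
  by_cases h : y ∈ {y : ι → ℝ | (∀ i, 0 ≤ y i) ∧ ∑ i with p i, y i ≤ T1 ∧
      ∑ i with ¬ p i, y i ≤ T2}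
  · rw [indicator_of_mem h, indicator_of_mem, indicator_of_mem]
    · simp
    · exact ⟨fun i => h.1 i, by rw [e2]; exact h.2.2⟩
    · exact ⟨fun i => h.1 i, by rw [e1]; exact h.2.1⟩
  · rw [indicator_of_notMem h]
    by_cases h1 : (fun i : {i // p i} => y i) ∈
        {y : {i // p i} → ℝ | (∀ i, 0 ≤ y i) ∧ ∑ i, y i ≤ T1}
    · rw [indicator_of_notMem (s := {y : {i // ¬ p i} → ℝ | (∀ i, 0 ≤ y i) ∧ ∑ i, y i ≤ T2}),
        mul_zero]
      intro h2
      apply h
      refine ⟨fun i => ?_, by rw [← e1]; exact h1.2, by rw [← e2]; exact h2.2⟩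
      by_cases hi : p i
      · exact h1.1 ⟨i, hi⟩
      · exact h2.1 ⟨i, hi⟩
    · rw [indicator_of_notMem h1, zero_mul]

theorem lintegral_tfp' (j : ℕ) (p : ι → Prop) [DecidablePred p] (T1 T2 : ℝ) (h1 : 0 ≤ T1)
    (h2 : 0 ≤ T2) :
    ∫⁻ y : ι → ℝ, tfp j p T1 T2 y = ENNReal.ofReal (T1 ^ (Finset.univ.filter p).card /
      (Nat.factorial (Finset.univ.filter p).card) *
      (T2 ^ (Fintype.card ι - (Finset.univ.filter p).card + j) * (Nat.factorial j) /
        (Nat.factorial (Fintype.card ι - (Finset.univ.filter p).card + j)))) := by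
  rw [lintegral_tfp _ _ _ _ h1 h2, Fintype.card_subtype_compl, Fintype.card_subtype]

/-- test function -/
noncomputable def tf (S : Finset ι) (T1 T2 : ℝ) (y : ι → ℝ) : ENNReal :=
  tfp 1 (fun i => i ∈ S) T1 T2 y

theorem measurable_tf (S : Finset ι) (T1 T2 : ℝ) : Measurable (tf S T1 T2) :=
  measurable_tfp _ _ _ _

theorem lintegral_tf (S : Finset ι) (T1 T2 : ℝ) (h1 : 0 ≤ T1) (h2 : 0 ≤ T2) :
    ∫⁻ y : ι → ℝ, tf S T1 T2 y = ENNReal.ofReal (T1 ^ S.card / (Nat.factorial S.card) *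
      (T2 ^ (Fintype.card ι - S.card + 1) / (Nat.factorial (Fintype.card ι - S.card + 1)))) := by
  have h := lintegral_tfp' 1 (fun i => i ∈ S) T1 T2 h1 h2
  have e : Finset.univ.filter (fun i => i ∈ S) = S := by ext; simp
  rw [e, Nat.factorial_one, Nat.cast_one, mul_one] at h
  exact h

theorem tf_eq (S : Finset ι) (y : ι → ℝ) (T1 T2 : ℝ) (hy : ∀ i, 0 ≤ y i)
    (hS : ∑ i ∈ S, y i ≤ T1) :
    tf S T1 T2 y = ENNReal.ofReal (T2 - ∑ i ∈ Sᶜ, y i) := by
  have e : Finset.univ.filter (fun i => i ∈ S) = S := by ext; simp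
  have e' : Finset.univ.filter (fun i => ¬ i ∈ S) = Sᶜ := by ext; simp
  have h := tfp_eq (fun i => i ∈ S) y T1 T2 hy (by rw [e]; exact hS)
  rw [e'] at h
  exact h

open Matrix in
theorem main_ineq (P : Set (ι → ℝ)) (hP : IsCompact P) (B : Matrix ι ι ℝ) (hB : B.det ≠ 0)
    (S : Finset ι) (hpos : ∀ x ∈ P, ∀ i, -1 ≤ (B *ᵥ x) i)
    (hS : ∀ x ∈ P, ∑ i ∈ S, (B *ᵥ x) i ≤ 1) (hbar : ∀ i, ∫ x in P, x i = 0) :
    |B.det| * (volume P).toReal ≤ ((S.card + 1 : ℝ) ^ S.card / (Nat.factorial S.card)) *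
      ((Fintype.card ι - S.card : ℕ) + 1 : ℝ) ^ (Fintype.card ι - S.card) /
        (Nat.factorial (Fintype.card ι - S.card)) := by
  set m : ℕ := Fintype.card ι - S.card with hm
  set k : ℕ := S.card with hk
  have hPm : MeasurableSet P := hP.measurableSet
  have hfin : volume P ≠ ⊤ := hP.measure_lt_top.ne
  -- the function `g`
  set g : (ι → ℝ) → ℝ := fun x => (m + 1 : ℝ) - ∑ i ∈ Sᶜ, ((B *ᵥ x) i + 1) with hg
  have hgc : Continuous g := by
    rw [hg]
    refine continuous_const.sub (continuous_finsetSum _ fun i _ => ?_)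
    exact (continuous_apply i).comp (Continuous.matrix_mulVec continuous_const continuous_id)
      |>.add continuous_const
  have hgi : IntegrableOn g P := hgc.continuousOn.integrableOn_compact hP
  have hxi : ∀ i, IntegrableOn (fun x : ι → ℝ => x i) P := fun i =>
    (continuous_apply i).continuousOn.integrableOn_compact hP
  have hBi : ∀ i, ∫ x in P, (B *ᵥ x) i = 0 := by
    intro i
    simp only [Matrix.mulVec, dotProduct]
    rw [integral_finsetSum _ fun j _ => (hxi j).const_mul _]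
    refine Finset.sum_eq_zero fun j _ => ?_
    rw [integral_const_mul, hbar, mul_zero]
  have hBii : ∀ i, IntegrableOn (fun x : ι → ℝ => (B *ᵥ x) i) P := fun i =>
    ((continuous_apply i).comp
      (Continuous.matrix_mulVec continuous_const continuous_id)).continuousOn.integrableOn_compact hP
  have hcard : ((Sᶜ).card : ℝ) = m := by rw [Finset.card_compl]
  have hint : ∫ x in P, g x = (volume P).toReal := by
    rw [hg]
    have e1 : ∀ x : ι → ℝ, (m + 1 : ℝ) - ∑ i ∈ Sᶜ, ((B *ᵥ x) i + 1) =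
        1 - ∑ i ∈ Sᶜ, (B *ᵥ x) i := by
      intro x
      rw [Finset.sum_add_distrib, Finset.sum_const, nsmul_eq_mul, hcard]
      ring
    simp only [e1]
    rw [integral_sub (integrable_const_iff.mpr (Or.inr ⟨by simpa using hP.measure_lt_top⟩))
      (integrable_finsetSum _ fun i _ => hBii i), integral_finsetSum _ fun i _ => hBii i]
    rw [Finset.sum_eq_zero fun i _ => hBi i]
    simp [Measure.real]
  have h1 : ENNReal.ofReal (volume P).toReal ≤ ∫⁻ x in P, ENNReal.ofReal (g x) := by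
    rw [← hint]
    have h2 : ∫ x in P, g x ≤ ∫ x in P, max (g x) 0 :=
      integral_mono hgi (hgi.sup (integrable_zero _ _ _)) fun x => le_max_left _ _
    refine (ENNReal.ofReal_le_ofReal h2).trans ?_
    have h3 : IntegrableOn (fun x => max (g x) 0) P := hgi.sup (integrable_zero _ _ _)
    rw [ofReal_integral_eq_lintegral_ofReal h3
      (Filter.Eventually.of_forall fun x => le_max_right _ _)]
    refine lintegral_mono fun x => ?_
    show ENNReal.ofReal (max (g x) 0) ≤ ENNReal.ofReal (g x)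
    rw [ENNReal.ofReal_max, ENNReal.ofReal_zero]
    simp
  have h2 : ∫⁻ x in P, ENNReal.ofReal (g x) ≤
      ∫⁻ x : ι → ℝ, tf S (k + 1) (m + 1) (fun i => (B *ᵥ x) i + 1) := by
    have h3 : ∫⁻ x in P, ENNReal.ofReal (g x) =
        ∫⁻ x in P, tf S (k + 1) (m + 1) (fun i => (B *ᵥ x) i + 1) := by
      refine setLIntegral_congr_fun hPm fun x hx => ?_
      rw [tf_eq S _ _ _ (fun i => by linarith [hpos x hx i])]
      rw [Finset.sum_add_distrib, Finset.sum_const, nsmul_eq_mul, mul_one]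
      linarith [hS x hx]
    rw [h3]
    exact setLIntegral_le_lintegral _ _
  have h3 : ∫⁻ x : ι → ℝ, tf S (k + 1) (m + 1) (fun i => (B *ᵥ x) i + 1) =
      ENNReal.ofReal |(B.det)⁻¹| * ∫⁻ y : ι → ℝ, tf S (k + 1) (m + 1) y := by
    have h4 := Real.map_matrix_volume_pi_eq_smul_volume_pi hB
    have hmeas : Measurable fun y : ι → ℝ => tf S (k + 1 : ℝ) (m + 1 : ℝ) (fun i => y i + 1) :=
      (measurable_tf S _ _).comp (by fun_prop)
    have h5 : ∫⁻ x : ι → ℝ, tf S (k + 1) (m + 1) (fun i => (B *ᵥ x) i + 1) =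
        ∫⁻ y, tf S (k + 1 : ℝ) (m + 1 : ℝ) (fun i => y i + 1)
          ∂(Measure.map (Matrix.toLin' B) volume) := by
      rw [lintegral_map hmeas (LinearMap.continuous_on_pi _).measurable]
      rfl
    rw [h5, h4, lintegral_smul_measure, smul_eq_mul]
    congr 1
    have h6 := measurePreserving_add_right (volume : Measure (ι → ℝ)) (fun _ => (1 : ℝ))
    exact h6.lintegral_comp (measurable_tf S _ _)
  rw [h3, lintegral_tf S _ _ (by positivity) (by positivity)] at h2
  have h4 := h1.trans h2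
  rw [← ENNReal.ofReal_mul (abs_nonneg _)] at h4
  rw [ENNReal.ofReal_le_ofReal_iff (by positivity)] at h4
  have hdet : 0 < |B.det| := abs_pos.mpr hB
  rw [abs_inv, ← hm, ← hk] at h4
  have h5 : |B.det| * (volume P).toReal ≤ (k + 1 : ℝ) ^ k / (Nat.factorial k) *
      ((m + 1 : ℝ) ^ (m + 1) / (Nat.factorial (m + 1))) := by
    calc |B.det| * (volume P).toReal ≤ |B.det| * (|B.det|⁻¹ * ((k + 1 : ℝ) ^ k /
          (Nat.factorial k) * ((m + 1 : ℝ) ^ (m + 1) / (Nat.factorial (m + 1))))) := by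
          gcongr
      _ = _ := by field_simp
  refine h5.trans (le_of_eq ?_)
  rw [Nat.factorial_succ]
  push_cast
  have : (m + 1 : ℝ) ≠ 0 := by positivity
  field_simp
  ring

end Pool.Agent.V5helper91.Toric
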