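import Mathlib

/-!
# Integrals over simplices
-/

set_option linter.style.haveILetI false
set_option linter.unusedSectionVars false

namespace Pool.Agent.V5helper91.Toric

open MeasureTheory Set

/-- `(T - ∑ y)^j` on the simplex `y ≥ 0`, `∑ y ≤ T`. -/
noncomputable def simp (ι : Type) [Fintype ι] (j : ℕ) (T : ℝ) (y : ι → ℝ) : ENNReal :=
  {y : ι → ℝ | (∀ i, 0 ≤ y i) ∧ ∑ i, y i ≤ T}.indicator
    (fun y => ENNReal.ofReal ((T - ∑ i, y i) ^ j)) y

theorem measurableSet_simp (ι : Type) [Fintype ι] (T : ℝ) :
    MeasurableSet {y : ι → ℝ | (∀ i, 0 ≤ y i) ∧ ∑ i, y i ≤ T} := by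
  refine MeasurableSet.inter ?_ ?_
  · have : {y : ι → ℝ | ∀ i, 0 ≤ y i} = ⋂ i, {y : ι → ℝ | 0 ≤ y i} := by ext; simp
    show MeasurableSet {y : ι → ℝ | ∀ i, 0 ≤ y i}
    rw [this]
    exact MeasurableSet.iInter fun i => measurableSet_le measurable_const (measurable_pi_apply i)
  · exact measurableSet_le (Finset.measurable_sum _ fun i _ => measurable_pi_apply i)
      measurable_const

theorem measurable_simp (ι : Type) [Fintype ι] (j : ℕ) (T : ℝ) : Measurable (simp ι j T) := by
  unfold simp
  refine Measurable.indicator (by fun_prop) (measurableSet_simp ι T)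

theorem simp_neg (ι : Type) [Fintype ι] (j : ℕ) {T : ℝ} (hT : T < 0) (y : ι → ℝ) :
    simp ι j T y = 0 := by
  unfold simp
  rw [indicator_of_notMem]
  rintro ⟨h1, h2⟩
  have := Finset.sum_nonneg fun i (_ : i ∈ Finset.univ) => h1 i
  linarith

theorem simp_cons (n j : ℕ) (T s : ℝ) (y : Fin n → ℝ) :
    simp (Fin (n + 1)) j T (Fin.cons s y) = (Ici (0 : ℝ)).indicator (fun s => simp (Fin n) j (T - s) y) s := by
  unfold simp
  by_cases hs : 0 ≤ s
  · rw [indicator_of_mem (s := Ici (0 : ℝ)) hs]
    by_cases h : y ∈ {y : Fin n → ℝ | (∀ i, 0 ≤ y i) ∧ ∑ i, y i ≤ T - s}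
    · rw [indicator_of_mem h, indicator_of_mem]
      · congr 2
        rw [Fin.sum_univ_succ]
        simp only [Fin.cons_zero, Fin.cons_succ]
        ring
      · refine ⟨fun i => ?_, ?_⟩
        · refine Fin.cases ?_ (fun i => ?_) i
          · simpa using hs
          · simpa using h.1 i
        · rw [Fin.sum_univ_succ]
          simp only [Fin.cons_zero, Fin.cons_succ]
          linarith [h.2]
    · rw [indicator_of_notMem h, indicator_of_notMem]
      rintro ⟨h1, h2⟩
      apply h
      refine ⟨fun i => by simpa using h1 i.succ, ?_⟩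
      rw [Fin.sum_univ_succ] at h2
      simp only [Fin.cons_zero, Fin.cons_succ] at h2
      linarith
  · rw [indicator_of_notMem (s := Ici (0 : ℝ)) hs, indicator_of_notMem]
    rintro ⟨h1, _⟩
    exact hs (by simpa using h1 0)

theorem lintegral_simp_fin (n j : ℕ) : ∀ T : ℝ, 0 ≤ T →
    ∫⁻ y : Fin n → ℝ, simp (Fin n) j T y =
      ENNReal.ofReal (T ^ (n + j) * (Nat.factorial j) / (Nat.factorial (n + j))) := by
  induction n with
  | zero =>
    intro T hT
    rw [lintegral_unique]
    have h1 : (volume : Measure (Fin 0 → ℝ)) univ = 1 := by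
      simp [volume_pi]
    rw [h1, mul_one]
    unfold simp
    rw [indicator_of_mem]
    · congr 1
      simp only [Finset.univ_eq_empty, Finset.sum_empty, sub_zero, zero_add]
      have : (Nat.factorial j : ℝ) ≠ 0 := by positivity
      field_simp
    · exact ⟨fun i => i.elim0, by simpa using hT⟩
  | succ n ih =>
    intro T hT
    have h1 := (volume_preserving_piFinSuccAbove (fun _ : Fin (n + 1) => ℝ) 0).symm
    rw [← h1.lintegral_comp (measurable_simp _ j T)]
    have h2 : ∀ z : ℝ × (Fin n → ℝ),
        simp (Fin (n + 1)) j T ((MeasurableEquiv.piFinSuccAbove (fun _ : Fin (n + 1) => ℝ) 0).symm z)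
        = (Ici (0 : ℝ)).indicator (fun s => simp (Fin n) j (T - s) z.2) z.1 := by
      intro z
      rw [← simp_cons]
      have e1 : (MeasurableEquiv.piFinSuccAbove (fun _ : Fin (n + 1) => ℝ) 0).symm z =
        Fin.insertNth 0 z.1 z.2 := rfl
      rw [e1, Fin.insertNth_zero]
      rfl
    simp only [h2]
    have hm : Measurable fun z : ℝ × (Fin n → ℝ) =>
        (Ici (0 : ℝ)).indicator (fun s => simp (Fin n) j (T - s) z.2) z.1 := by
      have : (fun z : ℝ × (Fin n → ℝ) =>
        (Ici (0 : ℝ)).indicator (fun s => simp (Fin n) j (T - s) z.2) z.1) = fun z =>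
          simp (Fin (n + 1)) j T
            ((MeasurableEquiv.piFinSuccAbove (fun _ : Fin (n + 1) => ℝ) 0).symm z) := by
        funext z; rw [h2]
      rw [this]
      exact (measurable_simp _ j T).comp (MeasurableEquiv.measurable _)
    rw [Measure.volume_eq_prod, lintegral_prod _ hm.aemeasurable]
    have h3 : ∀ s : ℝ, ∫⁻ y : Fin n → ℝ, (Ici (0 : ℝ)).indicator
        (fun s => simp (Fin n) j (T - s) y) s = (Icc (0 : ℝ) T).indicator (fun s =>
          ENNReal.ofReal ((T - s) ^ (n + j) * (Nat.factorial j) / (Nat.factorial (n + j)))) s := by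
      intro s
      by_cases hs : 0 ≤ s
      · simp only [indicator_of_mem (s := Ici (0 : ℝ)) (a := s) hs]
        by_cases hs2 : s ≤ T
        · rw [ih (T - s) (by linarith), indicator_of_mem (show s ∈ Icc 0 T from ⟨hs, hs2⟩)]
        · rw [indicator_of_notMem (fun h => hs2 h.2)]
          simp only [simp_neg (Fin n) j (show T - s < 0 by linarith)]
          simp
      · simp only [indicator_of_notMem (s := Ici (0 : ℝ)) (a := s) hs]
        rw [indicator_of_notMem (fun h => hs h.1)]
        simp
    simp only [h3]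
    rw [lintegral_indicator measurableSet_Icc, ← ofReal_integral_eq_lintegral_ofReal]
    · congr 1
      rw [integral_Icc_eq_integral_Ioc, ← intervalIntegral.integral_of_le hT]
      have h4 := intervalIntegral.integral_comp_sub_left (a := 0) (b := T)
        (fun s : ℝ => s ^ (n + j) * (Nat.factorial j) / (Nat.factorial (n + j))) T
      rw [h4]
      simp only [sub_self, sub_zero, mul_div_assoc]
      rw [intervalIntegral.integral_mul_const, integral_pow]
      have h5 : (Nat.factorial (n + 1 + j) : ℝ) = (n + j + 1 : ℝ) * Nat.factorial (n + j) := by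
        rw [show n + 1 + j = (n + j) + 1 by ring, Nat.factorial_succ]
        push_cast; ring
      rw [h5, show n + 1 + j = (n + j) + 1 by ring]
      have h6 : (Nat.factorial (n + j) : ℝ) ≠ 0 := by positivity
      have h7 : (n + j + 1 : ℝ) ≠ 0 := by positivity
      push_cast
      field_simp
      ring
    · apply Continuous.integrableOn_Icc
      fun_prop
    · rw [Filter.EventuallyLE, ae_restrict_iff' measurableSet_Icc]
      refine Filter.Eventually.of_forall fun s hs => ?_
      have : 0 ≤ T - s := by linarith [hs.2]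
      show 0 ≤ _
      positivity

theorem lintegral_simp (ι : Type) [Fintype ι] (j : ℕ) (T : ℝ) (hT : 0 ≤ T) :
    ∫⁻ y : ι → ℝ, simp ι j T y = ENNReal.ofReal (T ^ (Fintype.card ι + j) * (Nat.factorial j) /
      (Nat.factorial (Fintype.card ι + j))) := by
  rw [← lintegral_simp_fin _ _ T hT]
  have h1 := (volume_measurePreserving_piCongrLeft (fun _ : ι => ℝ) (Fintype.equivFin ι).symm)
  rw [← h1.lintegral_comp (measurable_simp _ j T)]
  refine lintegral_congr fun y => ?_
  have h2 : ∀ i, (MeasurableEquiv.piCongrLeft (fun _ : ι => ℝ) (Fintype.equivFin ι).symm) y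
      ((Fintype.equivFin ι).symm i) = y i := fun i => by
    rw [MeasurableEquiv.coe_piCongrLeft, Equiv.piCongrLeft_apply_apply]
  unfold simp
  have h3 : ∑ i, (MeasurableEquiv.piCongrLeft (fun _ : ι => ℝ) (Fintype.equivFin ι).symm) y i =
      ∑ i, y i := by
    rw [← Equiv.sum_comp (Fintype.equivFin ι).symm]
    exact Finset.sum_congr rfl fun i _ => h2 i
  have h4 : ((MeasurableEquiv.piCongrLeft (fun _ : ι => ℝ) (Fintype.equivFin ι).symm) y ∈
      {y : ι → ℝ | (∀ i, 0 ≤ y i) ∧ ∑ i, y i ≤ T}) ↔
      y ∈ {y : Fin (Fintype.card ι) → ℝ | (∀ i, 0 ≤ y i) ∧ ∑ i, y i ≤ T} := by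
    simp only [Set.mem_ofPred_eq, h3]
    refine and_congr_left fun _ => ?_
    constructor
    · intro h i; rw [← h2]; exact h _
    · intro h i
      have := h ((Fintype.equivFin ι) i)
      rwa [← h2, Equiv.symm_apply_apply] at this
  by_cases h : y ∈ {y : Fin (Fintype.card ι) → ℝ | (∀ i, 0 ≤ y i) ∧ ∑ i, y i ≤ T}
  · rw [indicator_of_mem h, indicator_of_mem (h4.mpr h), h3]
  · rw [indicator_of_notMem h, indicator_of_notMem (fun h' => h (h4.mp h'))]

end Pool.Agent.V5helper91.Toric
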